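import Mathlib
import Pool.Agent.J4H28.HY.Orb
import Pool.Agent.R869.UCor

/-!
# Rational points and hyperbolicity for varieties given by almost all sets of monomials

`TuplesIn I d`, `AlmostAllIn I P` (`Pool/Agent/R869/SDefs.lean`): the `s`-tuples of exponent vectors of
degree `d`, the `i`-th one of a monomial in the variables from the nonempty set `I i`; the proportion of
the tuples with the property `P` among them tends to `1` for `d → ∞`. `withPowers d a`
(`WDensDefs.lean`): the set of the exponent vectors `a i` and of those of the powers `x_j ^ d`.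

Theorem. Let `n`, `s` and the nonempty sets `I 1, …, I s` of variables be given. For almost all tuples of
monomials of degree `d` in `n + 1` variables, the `i`-th one in the variables from `I i`, the following
holds for all number fields `k`, all embeddings `σ : k → ℂ` and all projective varieties `X` in `ℙ ^ n`
(of any dimension and any singularities) given by linear combinations over `k` of these monomials and of
the powers `x_j ^ d` (`Lang σ Φ`):
(1) if `Z` is a closed subset, over `k`, such that `X(L) ∖ Z(L)` is finite for every finite extension `L`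
    of `k`, then all nonconstant holomorphic maps from the complex plane to `X_σ` have their image in
    `Z_σ`;
(2) if `X(L)` is finite for every finite extension `L` of `k`, then `X_σ` is Kobayashi hyperbolic: this is
    one of the two directions of the conjecture of Lang for `X`;
(3) if `X_τ` is hyperbolic for one embedding `τ : k → ℂ`, then for all;
(4) if `X = {Φ = 0}` is a hypersurface, then `X_σ` is Kobayashi hyperbolic if and only if no set of
    variables is loose for `Φ`, a property of the set of the monomials of `Φ` (`Loose`,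
    `Pool/Agent/R869/USharpDefs.lean`: `Φ` does not have exactly one monomial in the variables from `J`,
    and there is a colouring of the variables with `V ≥ 2` colours on `J` such that `N + D + 4 ≤ 2 V`,
    where `N` is the number of the monomials of `Φ` in the variables from `J` whose variables have
    different colours, and `D` is the number of the colours on `J` for which exactly one monomial of `Φ`
    in the variables from `J` has all its variables of this colour). So it is independent of `k`, `σ` and
    the values of the coefficients, and if some set of variables is loose, then `X(L)` is infinite for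
    some finite extension `L` of `k`.

Proof. By the starting library (`Pool.Agent.R869.Wd.dirs`) each entire curve in `X_σ` is moved, in
`X_σ`, by a nontrivial one-parameter group of diagonal matrices. So the entire curves are in the closure
of the union of the images of the nonconstant morphisms from the multiplicative group. Such a morphism
which does not lie in `Z_σ` can be specialized to a morphism over a finite extension `L` of `k`
(`Pool/Agent/J4H28/HY`). The criterion in (4) is `TypI.critJ` of the starting library.
-/

set_option autoImplicit false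

namespace Pool.Agent.Results.MP_f82ddf_nt.AlmostAllMonomials

open LinearAlgebra.Projectivization
open Pool.Agent.N154.GG (kobayashi projDist)
open Pool.Agent.N154.TB (BrodyHyp CurveIn IsConst)
open Pool.Agent.W602.GT (Cone IsForm)
open Pool.Agent.R869.Wd
open Pool.Agent.Q103.AR (Points)

/-- The complex projective variety with the cone `S` is hyperbolic: all holomorphic maps from the
complex plane to it are constant, and the Kobayashi pseudodistance is a distance; it is at least a
multiple of the distance of the projective space. -/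
def Hyperbolic {M : ℕ} (S : Set (Fin (M + 1) → ℂ)) : Prop :=
  BrodyHyp S ∧ ∃ c : ℝ, 0 < c ∧ ∀ p q : ℙ ℂ (Fin (M + 1) → ℂ), p.rep ∈ S → q.rep ∈ S →
    ENNReal.ofReal (c * projDist p q) ≤ kobayashi S p q

/-- The statements (1), (2), (3) for the projective variety `X = {Φ = 0}` over the number field `k` with
the embedding `σ`. -/
def Lang {k : Type} [Field k] [NumberField k] (σ : k →+* ℂ) {M : ℕ} {μ : Type}
    (Φ : μ → MvPolynomial (Fin (M + 1)) k) : Prop :=
  -- (1) closed subsets `Z = {Θ = 0}` which contain almost all rational points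
  (∀ (κ : Type) (Θ : κ → MvPolynomial (Fin (M + 1)) k), (∀ j, IsForm (Θ j)) →
    (∀ (L : Type) [Field L] [NumberField L] [Algebra k L], (Points Φ L \ Points Θ L).Finite) →
    ∀ f : ℂ → ℙ ℂ (Fin (M + 1) → ℂ), CurveIn (Cone fun e => MvPolynomial.map σ (Φ e)) f →
      ¬ IsConst f → ∀ z, (f z).rep ∈ Cone fun j => MvPolynomial.map σ (Θ j)) ∧
  -- (2) the direction of the conjecture of Lang
  ((∀ (L : Type) [Field L] [NumberField L] [Algebra k L], (Points Φ L).Finite) →
    Hyperbolic (Cone fun e => MvPolynomial.map σ (Φ e))) ∧
  -- (3) other embeddings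
  ∀ τ : k →+* ℂ, BrodyHyp (Cone fun e => MvPolynomial.map τ (Φ e)) →
    Hyperbolic (Cone fun e => MvPolynomial.map σ (Φ e))

theorem lang_of {k : Type} [Field k] [NumberField k] (σ : k →+* ℂ) {M : ℕ} {μ : Type}
    {Φ : μ → MvPolynomial (Fin (M + 1)) k} (hΦ : ∀ e, IsForm (Φ e))
    (h : Pool.Agent.Y221.FQ.SpH (fun e => MvPolynomial.map σ (Φ e)) ⊆
      Pool.Agent.W602.GT.SpGm (fun e => MvPolynomial.map σ (Φ e))) : Lang σ Φ :=
  ⟨fun _ _ hΘ hfin _ hf hnc z => Pool.Agent.J4H28.HY.curves_in σ hΦ h hΘ hfin hf hnc z,
    fun hfin => Pool.Agent.J4H28.HY.hyperbolic σ hΦ h hfin,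
    fun τ hτ => Pool.Agent.J4H28.HY.hyp_emb σ τ hΦ h hτ⟩

/-- For almost all tuples of monomials: the statements (1), (2), (3) hold for all projective varieties
over all number fields given by linear combinations of these monomials and of the powers of the
variables, and (4) holds for all such hypersurfaces. -/
theorem result (n s : ℕ) (I : Fin s → Finset (Fin (n + 1))) (hI : ∀ i, (I i).Nonempty) :
    AlmostAllIn I fun d a => ∀ (k : Type) [Field k] [NumberField k] (σ : k →+* ℂ),
      (∀ (m : ℕ) (Φ : Fin m → MvPolynomial (Fin (n + 1)) k),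
        (∀ e, (Φ e).support ⊆ withPowers d a) → Lang σ Φ) ∧
      -- (4) the criterion for hypersurfaces
      ∀ Φ : MvPolynomial (Fin (n + 1)) k, Φ.support ⊆ withPowers d a →
        (Hyperbolic (Cone fun _ : Fin 1 => MvPolynomial.map σ Φ) ↔
          ∀ J : Finset (Fin (n + 1)), ¬ Loose Φ J) := by
  classical
  refine almost_typI hI fun d a hty k _ _ σ => ?_
  have hsupp : ∀ Φ : MvPolynomial (Fin (n + 1)) k, (MvPolynomial.map σ Φ).support = Φ.support :=
    fun Φ => MvPolynomial.support_map_of_injective _ σ.injective
  obtain ⟨B, hB⟩ := exists_dirs (fun _ : Unit => withPowers d a)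
  obtain ⟨s', N, hg⟩ := hty.good
  have hform : ∀ Φ : MvPolynomial (Fin (n + 1)) k, Φ.support ⊆ withPowers d a → IsForm Φ := by
    intro Φ hΦ
    obtain ⟨D, hD⟩ := hg.deg
    exact ⟨D, isForm_of_deg fun α hα => hD α (hΦ hα)⟩
  have hlang : ∀ (m : ℕ) (Φ : Fin m → MvPolynomial (Fin (n + 1)) k),
      (∀ e, (Φ e).support ⊆ withPowers d a) →
      Pool.Agent.Y221.FQ.SpH (fun e => MvPolynomial.map σ (Φ e)) ⊆
      Pool.Agent.W602.GT.SpGm (fun e => MvPolynomial.map σ (Φ e)) := by
    intro m Φ hΦ
    have hΦ' : ∀ e, (MvPolynomial.map σ (Φ e)).support ⊆ withPowers d a := fun e => by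
      rw [hsupp]
      exact hΦ e
    have hform' : ∀ e, IsForm (MvPolynomial.map σ (Φ e)) := fun e => by
      obtain ⟨D, hD⟩ := hform _ (hΦ e)
      exact ⟨D, hD.map σ⟩
    refine Pool.Agent.J4H28.HY.spH_sub_of_orbits hform' fun f hf => ?_
    obtain ⟨-, h2, -⟩ := dirs (U := ∅) (hg.sys hΦ' ∅) (T := fun _ => withPowers d a) hΦ'
      (B := B) fun b => by
        obtain ⟨b', h1, h2, h3⟩ := hB b
        exact ⟨b', h1, h2, fun _ => h3 ()⟩
    obtain ⟨b, -, h3, h4⟩ := h2 f (Pool.Agent.J4H28.HY.entireCurve_iff.2 hf)
    exact ⟨b, h3, h4⟩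
  refine ⟨fun m Φ hΦ => lang_of σ (fun e => hform _ (hΦ e)) (hlang m Φ hΦ), fun Φ hΦ => ?_⟩
  have hΦ' : (MvPolynomial.map σ Φ).support ⊆ withPowers d a := by
    rw [hsupp]
    exact hΦ
  have hform' : ∀ e : Fin 1, IsForm ((fun _ : Fin 1 => MvPolynomial.map σ Φ) e) := fun _ => by
    obtain ⟨D, hD⟩ := hform _ hΦ
    exact ⟨D, hD.map σ⟩
  have hloose : ∀ J, Loose (MvPolynomial.map σ Φ) J ↔ Loose Φ J := by
    intro J
    unfold Loose Splits monIn
    rw [hsupp]
  constructor
  · intro h J hJ
    obtain ⟨f, hf, -⟩ := (hty.critJ hΦ' ∅ J).2 ⟨fun j hj => absurd hj (Set.notMem_empty j),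
      (hloose J).2 hJ⟩
    exact (Pool.Agent.J4H28.HY.brody_iff_entire hform').1 h.1 f
      (Pool.Agent.J4H28.HY.entireCurve_iff.1 hf)
  · intro h
    have hBr : BrodyHyp (Cone fun _ : Fin 1 => MvPolynomial.map σ Φ) := by
      rw [Pool.Agent.J4H28.HY.brody_iff_entire hform']
      intro f hf
      obtain ⟨-, h2⟩ := (hty.critJ hΦ' ∅ (Finset.univ.filter fun j => ∃ z, f z j ≠ 0)).1
        ⟨f, Pool.Agent.J4H28.HY.entireCurve_iff.2 hf, fun j => by simp⟩
      exact h _ ((hloose _).1 h2)
    exact ⟨hBr, Pool.Agent.J4H41.VI.kob_of_brody hform' hBr⟩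

end Pool.Agent.Results.MP_f82ddf_nt.AlmostAllMonomials
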