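import Pool.Agent.J4H41.VI.Fin

/-!
# Finiteness of rational points implies Kobayashi hyperbolicity for surfaces of general type with an
irregular étale cover

`X = {F = 0}` is a projective surface over a number field `k`, `σ : k → ℂ` an embedding, and
`X_σ = {σ F = 0}` is a smooth projective surface of general type with function field `K`
(`SmoothSurface`, `GeneralType`). `Points F L` is `X(L)`, a subset of `ℙ ⁿ (L)`.

Theorem. Suppose that some connected finite étale cover `X'` of `X_σ` (`K'` is its function field,
`Unramified`) has a nonconstant rational map to an elliptic curve, or two regular 1-forms whose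
exterior product is not zero, or a nonzero regular symmetric differential `h da₁ ⋯ da_d`
(`Irregular`); one of these holds if `X'` has positive irregularity. Or suppose, more generally, that
some finite cover of `X_σ` has enough multivalued symmetric differentials (`EnoughSym`). If `X(L)` is
finite for every finite extension `L` of `k`, then `X_σ` is Kobayashi hyperbolic.

Proof. If `X_σ` contains a curve which is not of general type, this curve is the image of an elliptic
curve, and specialization gives a number field `L` with `X(L)` infinite (`Pool/Agent/Q103/AR`, by
helper103). So all curves in `X_σ` are of general type, and Brody curves are Zariski dense and tangent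
to all regular symmetric differentials of `X_σ` (`Pool/Agent/N155/L`, the starting result
`MP_2a5ae2_ag.SymmetricDifferentials`). A Zariski dense Brody curve embeds `K` in the differential
field of the meromorphic functions, and `K'` in its algebraic closure `M`, whose constants are complex
numbers. Some symmetric differential `ρ` on `K'` which is regular over `X_σ` is not zero on the
derivation of `M`. The traces from `K'` to `K` of the powers `ρ ^ s` are regular symmetric
differentials on `X_σ`, and one of them is not zero on the derivation, a contradiction. So `X_σ` is
Brody hyperbolic, and Kobayashi hyperbolic by Brody's theorem.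
-/

set_option autoImplicit false

namespace Pool.Agent.Results.MP_f82ddf_nt.IrregularEtaleCovers

open FF LinearAlgebra.Projectivization
open Pool.Agent.W602.GT Pool.Agent.N155 Pool.Agent.J4H41.VI
open Pool.Agent.Q103.AR (Points)
open Pool.Agent.N154.GG (kobayashi projDist)

/-- Let `k` be a number field, `σ` an embedding of `k` in `ℂ` and `X` a projective variety over `k`,
given by the forms `F`, such that `X_σ` is a smooth projective surface of general type. Suppose that
a finite étale cover of `X_σ` is irregular (see `Irregular`), or that a finite cover of `X_σ` has
enough symmetric differentials (see `EnoughSym`). If `X(L)` is finite for every finite extension `L`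
of `k`, then `X_σ` is Kobayashi hyperbolic: all holomorphic maps from the plane to `X_σ` are constant,
and the Kobayashi pseudodistance is bounded below by a multiple of a distance of projective space. -/
theorem result {k : Type} [Field k] [NumberField k] (σ : k →+* ℂ) {n : ℕ} {ι : Type}
    (F : ι → MvPolynomial (Fin (n + 1)) k) (hF : ∀ e, IsForm (F e)) {K : Type} [Field K]
    [Algebra ℂ K] (y : Fin (n + 1) → K)
    (hX : SmoothSurface (fun e => MvPolynomial.map σ (F e)) y) (hgt : GeneralType ℂ K 2)
    {K' : Type} [Field K'] [Algebra ℂ K'] [Algebra K K'] [IsScalarTower ℂ K K']
    [FiniteDimensional K K'] (hK' : EnoughSym K K' ∨ Unramified K K' 2 ∧ Irregular K')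
    (hfin : ∀ (L : Type) [Field L] [NumberField L] [Algebra k L], (Points F L).Finite) :
    BrodyHyperbolic (fun e => MvPolynomial.map σ (F e)) ∧
    ∃ c : ℝ, 0 < c ∧ ∀ p q : ℙ ℂ (Fin (n + 1) → ℂ),
      p.rep ∈ Cone (fun e => MvPolynomial.map σ (F e)) →
      q.rep ∈ Cone (fun e => MvPolynomial.map σ (F e)) →
      ENNReal.ofReal (c * projDist p q) ≤
        kobayashi (Cone (fun e => MvPolynomial.map σ (F e))) p q :=
  hyperbolic_of_finite σ hF hX hgt hfin hK'

end Pool.Agent.Results.MP_f82ddf_nt.IrregularEtaleCovers
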