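import Mathlib
import Pool.Agent.J4H28.HY.Emb
import Pool.Agent.X333.DN.ImT

/-!
# Rational points and hyperbolicity for the finite images of varieties given by nested sums of high powers

`k` is a number field with an embedding `σ : k → ℂ`, and `X = {Φ = 0}` is a projective variety over `k`
(a closed subset of `ℙ ^ M`, given by forms over `k`). We suppose that the complex variety `X_σ` is the
image of a complex projective variety `V = {F = 0}` in `ℙ ^ n` under a morphism `G` (given by forms of
equal degree) with fibres of at most `r` points, where the forms `F` are nested sums of high powers of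
linear forms, or nested sums of high powers of monomials (`HighTowers s N h F`,
`Pool/Agent/TH710/ND/Proj.lean`: at most `h + 1` levels, at most `s` summands at each, exponents at least
`N`, with `(n + 1) (h + 1) 4 · 10 ^ (2 s) (r + 1) ^ 7 ≤ N`). Nothing is assumed on the dimension, the
singularities and the branch locus, and `V` and `G` need not be defined over a number field. For instance
`X` can be `V` itself, or the quotient of `V` by a finite group with at most `r` elements.

Theorem.
(1) If `Z = {Θ = 0}` is a closed subset of `X`, over `k`, such that `X(L) ∖ Z(L)` is finite for every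
    finite extension `L` of `k`, then all nonconstant holomorphic maps from the complex plane to `X_σ`
    have their image in `Z_σ`.
(2) If `X(L)` is finite for every finite extension `L` of `k`, then `X_σ` is Kobayashi hyperbolic: this is
    one of the two directions of the conjecture of Lang for `X`.
(3) If `X_τ` is hyperbolic for one embedding `τ : k → ℂ`, then `X_σ` is hyperbolic (which the conjecture
    implies). Here only `X_σ` is supposed to be an image of a `V`.

Proof. By the starting library (`special_im'`) the entire curves in `X_σ` are in the closure `S` of the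
union of the images of the nonconstant morphisms from the multiplicative group to `X_σ`. Such a morphism
is given by Laurent polynomials. If a form `G` over `k` does not vanish on its image, then it can be
specialized to a morphism over a finite extension `L` of `k` with the same property (Nullstellensatz), and
this has infinitely many points of `X(L)` off `G = 0` in its image. So `S` lies in `Z_σ`. If `S` is empty,
then `X_σ` is Brody hyperbolic and therefore Kobayashi hyperbolic. For (3) the morphism over `L` is embedded
in `X_τ` (`Pool/Agent/J4H28/HY`).
-/

set_option autoImplicit false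

namespace Pool.Agent.Results.MP_f82ddf_nt.NestedPowerImages

open LinearAlgebra.Projectivization
open Pool.Agent.N154.GG (kobayashi projDist)
open Pool.Agent.N154.TB (BrodyHyp CurveIn IsConst)
open Pool.Agent.W602.GT (Cone IsForm)
open Pool.Agent.Y221.FQ (Mor Onto FibresLe)
open Pool.Agent.TH710.ND (HighTowers)
open Pool.Agent.Q103.AR (Points)

/-- The complex projective variety with the cone `S` is hyperbolic: all holomorphic maps from the
complex plane to it are constant, and the Kobayashi pseudodistance is a distance; it is at least a
multiple of the distance of the projective space. -/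
def Hyperbolic {M : ℕ} (S : Set (Fin (M + 1) → ℂ)) : Prop :=
  BrodyHyp S ∧ ∃ c : ℝ, 0 < c ∧ ∀ p q : ℙ ℂ (Fin (M + 1) → ℂ), p.rep ∈ S → q.rep ∈ S →
    ENNReal.ofReal (c * projDist p q) ≤ kobayashi S p q

theorem result {k : Type} [Field k] [NumberField k] (σ : k →+* ℂ) {n M s N h r : ℕ} {ι μ : Type}
    -- `V = {F = 0}` is given by nested sums of high powers
    {F : ι → MvPolynomial (Fin (n + 1)) ℂ} (hF : HighTowers s N h F)
    (hN : (n + 1) * ((h + 1) * (4 * 10 ^ (2 * s) * (r + 1) ^ 7)) ≤ N)
    -- `X = {Φ = 0}` is a projective variety over the number field `k`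
    {Φ : μ → MvPolynomial (Fin (M + 1)) k} (hΦ : ∀ e, IsForm (Φ e))
    -- `G` is a surjective morphism from `V` to `X_σ` with fibres of at most `r` points
    {G : Fin (M + 1) → MvPolynomial (Fin (n + 1)) ℂ}
    (hG : Mor F (fun e => MvPolynomial.map σ (Φ e)) G)
    (hon : Onto F (fun e => MvPolynomial.map σ (Φ e)) G) (hfib : FibresLe F G r) :
    -- (1) closed subsets `Z = {Θ = 0}` which contain almost all rational points
    (∀ (κ : Type) (Θ : κ → MvPolynomial (Fin (M + 1)) k), (∀ j, IsForm (Θ j)) →
      (∀ (L : Type) [Field L] [NumberField L] [Algebra k L], (Points Φ L \ Points Θ L).Finite) →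
      ∀ f : ℂ → ℙ ℂ (Fin (M + 1) → ℂ), CurveIn (Cone fun e => MvPolynomial.map σ (Φ e)) f →
        ¬ IsConst f → ∀ z, (f z).rep ∈ Cone fun j => MvPolynomial.map σ (Θ j)) ∧
    -- (2) the direction of the conjecture of Lang
    ((∀ (L : Type) [Field L] [NumberField L] [Algebra k L], (Points Φ L).Finite) →
      Hyperbolic (Cone fun e => MvPolynomial.map σ (Φ e))) ∧
    -- (3) other embeddings
    ∀ τ : k →+* ℂ, BrodyHyp (Cone fun e => MvPolynomial.map τ (Φ e)) →
      Hyperbolic (Cone fun e => MvPolynomial.map σ (Φ e)) := by
  have hΦ' : ∀ e, IsForm (MvPolynomial.map σ (Φ e)) := fun e => by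
    obtain ⟨d, hd⟩ := hΦ e
    exact ⟨d, hd.map σ⟩
  have h := (Pool.Agent.X333.DN.special_im' hΦ' hG hon hfib hF hN).1.subset
  exact ⟨fun κ Θ hΘ hfin f hf hnc z => Pool.Agent.J4H28.HY.curves_in σ hΦ h hΘ hfin hf hnc z,
    fun hfin => Pool.Agent.J4H28.HY.hyperbolic σ hΦ h hfin,
    fun τ hτ => Pool.Agent.J4H28.HY.hyp_emb σ τ hΦ h hτ⟩

end Pool.Agent.Results.MP_f82ddf_nt.NestedPowerImages
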