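import Mathlib
import Pool.Agent.J4H28.HY.Ab

/-!
# Rational points and hyperbolicity for closed subvarieties of varieties over abelian varieties

`X = {F = 0}` is a complex projective variety, `S = {G = 0}` a closed subset of projective space such
that `X` is a complex manifold of dimension `d` outside `S`, and `α : X → A = ℂᵐ / Λ` a holomorphic map
to an abelian variety (`H` is a Riemann form). The 2-forms of `X` are positive outside `S` in the
directions of `A` (`TwoForms`, `Pool/Agent/N154/TB/Defs.lean`): for tangent vectors `v`, `w` of `X` at
a point outside `S` which are linearly independent, where `v` is not tangent to the fibre of `α`, some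
of the forms `η q x v w` does not vanish; these are holomorphic and twisted by `O (-1)`, for instance
the values at `(v ∧ w) ^ ν` of sections of `Sym ^ ν (Λ² Ω) ⊗ O (-1)`; or they are not twisted but vanish
over an ample divisor of `A`. For instance `X` can be any projective manifold with ample `Λ² Ω` and
`S` empty, or any smooth surface of general type and `S` the base locus of the sections of a power of
the canonical bundle which vanish on a hyperplane section.

`k` is a number field with an embedding `σ : k → ℂ`, and `Y = {Φ = 0}` is a projective variety over `k`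
such that `Y_σ` is contained in `X` (for instance `Y_σ = X`; the variety `X` and the map `α` need not be
defined over a number field; `Y` may be singular and have any dimension).

Theorem.
(1) Suppose that the Zariski closures of the images of the holomorphic maps from the complex plane to a
    fibre of `α` on `Y_σ`, or to `Y_σ ∩ S`, are of dimension at most one (for instance the fibres of `α`
    on `Y_σ` and `Y_σ ∩ S` are of dimension at most one, or hyperbolic). If `Y(L)` is finite for every
    finite extension `L` of `k`, then `Y_σ` is Kobayashi hyperbolic: one of the two directions of the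
    conjecture of Lang for `Y`.
(2) Suppose that the holomorphic maps from the complex plane to a fibre of `α` on `Y_σ`, or to
    `Y_σ ∩ S`, are constant. If `Z = {Θ = 0}` is a closed subset, over `k`, such that `Y(L) ∖ Z(L)` is
    finite for every finite extension `L` of `k`, then all nonconstant holomorphic maps from the complex
    plane to `Y_σ` have their image in `Z_σ`.

Proof. By the starting library (`closed_geo`, see `MP_2a5ae2_ag.EntireCurvesOverAbelian`), if `Y_σ` is
not Brody hyperbolic, then there is a nonconstant holomorphic map `h : ℂ → Y_σ` with bounded derivative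
which lies in a fibre of `α` or in `S`, or is doubly periodic. In both cases the Zariski closure `C` of
its image is a curve, and it is not of general type, since `h` has bounded derivative. So `C` is
dominated by an elliptic curve, and a specialisation of the map from this elliptic curve to `Y` gives
infinitely many points in `Y(L)`, for a finite extension `L` of `k` (`infinite_of_elliptic`); they can
be chosen off `Z` if `C` does not lie in `Z_σ`.
-/

set_option autoImplicit false

namespace Pool.Agent.Results.MP_f82ddf_nt.OverAbelianVarieties

open LinearAlgebra.Projectivization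
open Pool.Agent.N154.GG (kobayashi projDist)
open Pool.Agent.N154.TB (BrodyHyp CurveIn IsConst TwoForms Zeros)
open Pool.Agent.N154.TT (RiemannForm HolToTorus)
open Pool.Agent.W602.GT (Cone IsForm)
open Pool.Agent.Q103.AR (Points)
open Pool.Agent.J4H28.HY (ZarClosure)

/-- The complex projective variety with the cone `T` is hyperbolic: all holomorphic maps from the
complex plane to it are constant, and the Kobayashi pseudodistance is a distance; it is at least a
multiple of the distance of the projective space. -/
def Hyperbolic {n : ℕ} (T : Set (Fin (n + 1) → ℂ)) : Prop :=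
  BrodyHyp T ∧ ∃ c : ℝ, 0 < c ∧ ∀ p q : ℙ ℂ (Fin (n + 1) → ℂ), p.rep ∈ T → q.rep ∈ T →
    ENNReal.ofReal (c * projDist p q) ≤ kobayashi T p q

/-- The holomorphic map `h` from the complex plane to the projective variety with the cone `T` has its
image in a fibre of `α` or in the set `S`. -/
def Special {n : ℕ} {E : Type} (T S : Set (Fin (n + 1) → ℂ)) (α : (Fin (n + 1) → ℂ) → E)
    (h : ℂ → ℙ ℂ (Fin (n + 1) → ℂ)) : Prop :=
  CurveIn T h ∧ ((∀ z w, α (h z).rep = α (h w).rep) ∨ ∀ z, (h z).rep ∈ S)

theorem result {k : Type} [Field k] [NumberField k] (σ : k →+* ℂ) {n m d : ℕ} {ι ι' μ κ : Type}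
    -- the complex projective variety `X = {F = 0}` and the closed subset `S = {G = 0}`
    (F : ι → MvPolynomial (Fin (n + 1)) ℂ) (hF : ∀ i, IsForm (F i))
    (G : ι' → MvPolynomial (Fin (n + 1)) ℂ) (hG : ∀ j, IsForm (G j))
    -- the holomorphic map `α` from `X` to an abelian variety
    (Λ : Submodule ℤ (Fin m → ℂ)) [DiscreteTopology Λ] [IsZLattice ℝ Λ]
    (H : (Fin m → ℂ) → (Fin m → ℂ) → ℂ) (hH : RiemannForm Λ H)
    (α : (Fin (n + 1) → ℂ) → (Fin m → ℂ) ⧸ Λ) (hα : HolToTorus (Cone F) Λ α)
    -- the 2-forms are positive outside `S` in the directions of the abelian variety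
    (r : κ → ℕ) (η : κ → (Fin (n + 1) → ℂ) → (Fin (n + 1) → ℂ) → (Fin (n + 1) → ℂ) → ℂ)
    (hη : TwoForms (Cone F) (Zeros G) d α r η)
    -- the projective variety `Y = {Φ = 0}` over the number field `k`, contained in `X`
    (Φ : μ → MvPolynomial (Fin (n + 1)) k) (hΦ : ∀ e, IsForm (Φ e))
    (hsub : Cone (fun e => MvPolynomial.map σ (Φ e)) ⊆ Cone F) :
    -- (1) the direction of the conjecture of Lang
    ((∀ h, Special (Cone fun e => MvPolynomial.map σ (Φ e)) (Zeros G) α h →
        ∀ (K : Type) [Field K] [Algebra ℂ K] (w : ℕ) (y : Fin (n + 1) → K),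
          ZarClosure h K w y → w ≤ 1) →
      (∀ (L : Type) [Field L] [NumberField L] [Algebra k L], (Points Φ L).Finite) →
      Hyperbolic (Cone fun e => MvPolynomial.map σ (Φ e))) ∧
    -- (2) closed subsets `Z = {Θ = 0}` which contain almost all rational points
    ((∀ h, Special (Cone fun e => MvPolynomial.map σ (Φ e)) (Zeros G) α h → IsConst h) →
      ∀ (ν : Type) (Θ : ν → MvPolynomial (Fin (n + 1)) k), (∀ j, IsForm (Θ j)) →
      (∀ (L : Type) [Field L] [NumberField L] [Algebra k L], (Points Φ L \ Points Θ L).Finite) →
      ∀ f : ℂ → ℙ ℂ (Fin (n + 1) → ℂ), CurveIn (Cone fun e => MvPolynomial.map σ (Φ e)) f →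
        ¬ IsConst f → ∀ z, (f z).rep ∈ Cone fun j => MvPolynomial.map σ (Θ j)) := by
  have hΦ' : ∀ e, IsForm (MvPolynomial.map σ (Φ e)) := fun e => by
    obtain ⟨d, hd⟩ := hΦ e
    exact ⟨d, hd.map σ⟩
  refine ⟨fun hdim hfin => ?_, fun hconst ν Θ hΘ hfin f hf hnc z => ?_⟩
  · have hB := Pool.Agent.J4H28.HY.hyp_over σ hF hG hH hα hη hΦ hsub
      (fun h h1 h2 => hdim h ⟨h1, h2⟩) hfin
    exact ⟨hB, Pool.Agent.J4H41.VI.kob_of_brody hΦ' hB⟩
  · exact Pool.Agent.J4H28.HY.in_over σ hF hG hH hα hη hΦ hsub
      (fun h h1 h2 => hconst h ⟨h1, h2⟩) hΘ hfin hf hnc z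

end Pool.Agent.Results.MP_f82ddf_nt.OverAbelianVarieties
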